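import Mathlib
import Pool.Agent.V1153.GG.Tr

/-!
# The Goldbach graphs without a small exceptional set

There is an absolute constant `k` such that for every `U` and all large `n` one can delete at most
`n / (log n) ^ U` vertices from the finite Goldbach graph `G_n` such that the remaining graph has at most
`k` connected components, each of diameter at most `k` and with at least `n / k` vertices. The same holds
for the finite near Goldbach graph `G(n)`.
-/

set_option autoImplicit false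

namespace Pool.Agent.Results.MP_443e5f_co.FewComponents

/-- The graph with the vertices `a`, `V a`, in which `a ≠ b` are adjacent if `(a + b) / 2` and
`|a - b| / 2` satisfy `A`. -/
def graph (V A : ℕ → Prop) : SimpleGraph {a : ℕ // V a} where
  Adj a b := a ≠ b ∧ A ((a.1 + b.1) / 2) ∧ A (((a.1 : ℤ) - b.1).natAbs / 2)
  symm := ⟨by
    rintro a b ⟨h1, h2, h3⟩
    refine ⟨h1.symm, by rwa [add_comm], ?_⟩
    rwa [← Int.natAbs_neg, neg_sub]⟩
  loopless := ⟨fun a h => h.1 rfl⟩

/-- the finite Goldbach graph `G_n` -/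
def goldbach (n : ℕ) : SimpleGraph {a : ℕ // Even a ∧ a ≤ 2 * n} :=
  graph _ fun m => m.Prime ∧ Odd m ∧ m < 2 * n

/-- the finite near Goldbach graph `G(n)` -/
def nearGoldbach (n : ℕ) : SimpleGraph {a : ℕ // Even a ∧ 2 ≤ a ∧ a ≤ 2 * n} :=
  graph _ fun m => m = 1 ∨ (m.Prime ∧ Odd m ∧ m < 2 * n)

/-- The graph which remains of `G` if the vertices in `E` are deleted has at most `k` connected
components, each of them has at least `n / k` vertices, and vertices in the same component have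
distance at most `k`. -/
def FewLarge {V : Type} (G : SimpleGraph V) (E : Set V) (n k : ℕ) : Prop :=
  Nat.card (G.induce Eᶜ).ConnectedComponent ≤ k ∧
    (∀ c : (G.induce Eᶜ).ConnectedComponent, n ≤ k * c.supp.ncard) ∧
    ∀ a b, (G.induce Eᶜ).Reachable a b → (G.induce Eᶜ).dist a b ≤ k

theorem graph_eq (V A : ℕ → Prop) : graph V A = Pool.Agent.V1153.GG.graph V A := by
  ext a b
  rfl

/-- There is a `k` such that for every `U` and all sufficiently large `n` there is a set `E` of at most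
`n / (log n) ^ U` vertices of the Goldbach graph `G_n` such that `G_n` without `E` has at most `k`
connected components, each with at least `n / k` vertices and of diameter at most `k`. The same holds for
the near Goldbach graph `G(n)`. -/
theorem result : ∃ k : ℕ, ∀ U : ℕ, ∃ N : ℕ, ∀ n : ℕ, N ≤ n →
    (∃ E : Set {a : ℕ // Even a ∧ a ≤ 2 * n}, (E.ncard : ℝ) ≤ n / Real.log n ^ U ∧
      FewLarge (goldbach n) E n k) ∧
    (∃ E : Set {a : ℕ // Even a ∧ 2 ≤ a ∧ a ≤ 2 * n}, (E.ncard : ℝ) ≤ n / Real.log n ^ U ∧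
      FewLarge (nearGoldbach n) E n k) := by
  classical
  obtain ⟨δ, hδ, hmain⟩ := Pool.Agent.V1153.GG.two_large
  obtain ⟨k, hk⟩ := exists_nat_ge (5 / δ)
  refine ⟨k, fun U => ?_⟩
  obtain ⟨N1, hN1⟩ := hmain (U + 1)
  have hlog : Filter.Tendsto (fun n : ℕ => Real.log (n : ℝ)) Filter.atTop Filter.atTop :=
    Real.tendsto_log_atTop.comp tendsto_natCast_atTop_atTop
  obtain ⟨N2, hN2⟩ := Filter.eventually_atTop.1 (hlog.eventually_ge_atTop (2 : ℝ))
  have hlo := (isLittleO_log_rpow_atTop (r := 1 / ((U : ℝ) + 2)) (by positivity)).bound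
    (c := 1) one_pos
  have h2 : Filter.Tendsto (fun n : ℕ => (n : ℝ)) Filter.atTop Filter.atTop :=
    tendsto_natCast_atTop_atTop
  obtain ⟨N3, hN3⟩ := Filter.eventually_atTop.1 (h2.eventually hlo)
  refine ⟨max N1 (max N2 (max N3 3)), fun n hn => ?_⟩
  have hn1 := (le_max_left _ _).trans hn
  have hn2 := ((le_max_left _ _).trans (le_max_right _ _)).trans hn
  have hn3 := ((le_max_left _ _).trans ((le_max_right _ _).trans (le_max_right _ _))).trans hn
  have hn4 : 3 ≤ n := ((le_max_right _ _).trans ((le_max_right _ _).trans (le_max_right _ _))).trans hn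
  obtain ⟨X, hX, hXc, hXt⟩ := hN1 n hn1
  have hL := hN2 n hn2
  have hlg := hN3 n hn3
  obtain ⟨L, hLd⟩ : ∃ L, L = Real.log n := ⟨_, rfl⟩
  rw [← hLd] at hL hXc hlg
  have hL0 : 0 < L := by linarith
  have hn0 : (0 : ℝ) < n := by exact_mod_cast (by omega : 0 < n)
  have hLn : L ^ (U + 1) ≤ n := by
    rw [Real.norm_of_nonneg hL0.le, Real.norm_of_nonneg (Real.rpow_nonneg hn0.le _), one_mul] at hlg
    calc L ^ (U + 1) ≤ L ^ (U + 2) := pow_le_pow_right₀ (by linarith) (by omega)
      _ ≤ ((n : ℝ) ^ (1 / ((U : ℝ) + 2))) ^ (U + 2) := pow_le_pow_left₀ hL0.le hlg _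
      _ = n := by
        rw [← Real.rpow_natCast, ← Real.rpow_mul hn0.le]
        push_cast
        rw [one_div, inv_mul_cancel₀ (by positivity), Real.rpow_one]
  have hcard : (((Finset.Icc 1 n \ X).card + 1 : ℕ) : ℝ) ≤ n / L ^ U := by
    push_cast
    have h3 : (1 : ℝ) ≤ n / L ^ (U + 1) := by
      rw [le_div_iff₀ (by positivity), one_mul]
      exact hLn
    have h4 : (n : ℝ) / L ^ U = n / L ^ (U + 1) * L := by
      rw [pow_succ]
      field_simp
    have h5 : 0 ≤ n / L ^ (U + 1) := by positivity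
    rw [h4]
    nlinarith
  have gen : ∀ V A : ℕ → Prop, (∀ a, V a → Even a ∧ a ≤ 2 * n) →
      (∀ a, Even a → 2 ≤ a → a ≤ 2 * n → V a) → (∀ m, m.Prime → Odd m → m < 2 * n → A m) →
      ∃ E : Set {a : ℕ // V a}, (E.ncard : ℝ) ≤ n / Real.log n ^ U ∧ FewLarge (graph V A) E n k := by
    intro V A h1 h3 h4
    rw [graph_eq]
    obtain ⟨E, hE, hE2, hE3, hE4⟩ := Pool.Agent.V1153.GG.trans hX hδ (by omega) hXt hk V A h1 h3 h4
    rw [← hLd]
    refine ⟨E, le_trans (by exact_mod_cast hE) hcard, hE2, fun c => ?_, hE4⟩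
    exact_mod_cast hE3 c
  exact ⟨gen _ _ (fun a h => h) (fun a h1 _ h3 => ⟨h1, h3⟩) fun m h1 h3 h4 => ⟨h1, h3, h4⟩,
    gen _ _ (fun a h => ⟨h.1, h.2.2⟩) (fun a h1 h3 h4 => ⟨h1, h3, h4⟩) fun m h1 h3 h4 =>
      Or.inr ⟨h1, h3, h4⟩⟩

end Pool.Agent.Results.MP_443e5f_co.FewComponents
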