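import Mathlib
import Pool.Agent.V1153.GG.Lo

/-!
# The sifted Goldbach graphs have diameter five

For an odd prime `p` let `G(p, n)` be the graph on `{2, 4, ..., 2 n}` in which `a ≠ b` are adjacent if
`(a + b) / 2` and `|a - b| / 2` are odd numbers less than `2 n` not of the form `p k` with `k > 1`. The
near Goldbach graph `G(n)` is the intersection of the `G(p, n)` over all odd primes `p` with
`p ^ 2 < 2 n`. It is known that each `G(p, n)` is connected with diameter at most `3`, and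
`G(3, n) ∩ G(5, n)` with diameter at most `4`.

We show that for some constant `K` and all large `n` the intersection of the `G(p, n)` over all odd primes
`p ≤ n ^ (1 / K)` is connected of diameter `5`; and the same for the corresponding graphs on
`{0, 2, ..., 2 n}` without the number `1`. In particular the numbers `(a + b) / 2` and `|a - b| / 2` have a
bounded number of prime factors. The Goldbach graphs themselves have, for `n ≥ 205`, diameter at least `5`.
-/

set_option autoImplicit false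

namespace Pool.Agent.Results.MP_443e5f_co.SiftedGoldbachGraphs

/-- The graph with the vertices `a`, `V a`, in which `a ≠ b` are adjacent if `(a + b) / 2` and
`|a - b| / 2` satisfy `A`. -/
def graph (V A : ℕ → Prop) : SimpleGraph {a : ℕ // V a} where
  Adj a b := a ≠ b ∧ A ((a.1 + b.1) / 2) ∧ A (((a.1 : ℤ) - b.1).natAbs / 2)
  symm := ⟨by
    rintro a b ⟨h1, h2, h3⟩
    refine ⟨h1.symm, by rwa [add_comm], ?_⟩
    rwa [← Int.natAbs_neg, neg_sub]⟩
  loopless := ⟨fun a h => h.1 rfl⟩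

/-- the finite Goldbach graph `G_n` -/
def goldbach (n : ℕ) : SimpleGraph {a : ℕ // Even a ∧ a ≤ 2 * n} :=
  graph _ fun m => m.Prime ∧ Odd m ∧ m < 2 * n

/-- the finite near Goldbach graph `G(n)` -/
def nearGoldbach (n : ℕ) : SimpleGraph {a : ℕ // Even a ∧ 2 ≤ a ∧ a ≤ 2 * n} :=
  graph _ fun m => m = 1 ∨ (m.Prime ∧ Odd m ∧ m < 2 * n)

/-- the intersection of the graphs `G(p, n)` over the odd primes `p ≤ y` -/
def nearSifted (n y : ℕ) : SimpleGraph {a : ℕ // Even a ∧ 2 ≤ a ∧ a ≤ 2 * n} :=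
  graph _ fun m => Odd m ∧ m < 2 * n ∧ ∀ p, p.Prime → 3 ≤ p → p ≤ y → ¬ ∃ k, 1 < k ∧ m = p * k

/-- the same on `{0, 2, ..., 2 n}`, with the number `1` not admitted -/
def sifted (n y : ℕ) : SimpleGraph {a : ℕ // Even a ∧ a ≤ 2 * n} :=
  graph _ fun m => m ≠ 1 ∧ Odd m ∧ m < 2 * n ∧
    ∀ p, p.Prime → 3 ≤ p → p ≤ y → ¬ ∃ k, 1 < k ∧ m = p * k

open Pool.Agent.V1153.GG (Adm Wk)

theorem graph_eq (V A : ℕ → Prop) : graph V A = Pool.Agent.V1153.GG.graph V A := by
  ext a b
  rfl

theorem iff_adm {n y m : ℕ} : (Odd m ∧ m < 2 * n ∧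
    ∀ p, p.Prime → 3 ≤ p → p ≤ y → ¬ ∃ k, 1 < k ∧ m = p * k) ↔ (m = 1 ∧ m < 2 * n) ∨ Adm n y m := by
  constructor
  · rintro ⟨h1, h2, h3⟩
    by_cases hm : m = 1
    · exact Or.inl ⟨hm, h2⟩
    · refine Or.inr ⟨h1, h2, ?_⟩
      by_cases hp : m.Prime
      · exact Or.inl hp
      · have hm1 : 1 < m := by
          rcases h1 with ⟨k, hk⟩
          omega
        refine Or.inr ⟨hm1, fun p hpp hpm => ?_⟩
        by_contra hlt
        obtain ⟨k, hk⟩ := hpm
        have hpodd : p ≠ 2 := by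
          rintro rfl
          rw [hk] at h1
          exact (Nat.not_odd_iff_even.2 (even_two_mul k)) h1
        have h2p := hpp.two_le
        refine h3 p hpp (by omega) (not_lt.1 hlt) ⟨k, ?_, hk⟩
        rcases Nat.lt_or_ge 1 k with h | h
        · exact h
        · interval_cases k
          · omega
          · rw [mul_one] at hk
            exact absurd (hk ▸ hpp) hp
  · rintro (⟨rfl, h⟩ | ⟨h1, h2, h3⟩)
    · refine ⟨odd_one, h, ?_⟩
      rintro p hp - - ⟨k, hk, h1⟩
      have := hp.two_le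
      nlinarith
    · refine ⟨h1, h2, ?_⟩
      rintro p hp - hpy ⟨k, hk, hmk⟩
      rcases h3 with h3 | ⟨-, h3⟩
      · have := (Nat.prime_dvd_prime_iff_eq hp h3).1 ⟨k, hmk⟩
        have hp2 := hp.two_le
        nlinarith
      · have := h3 p hp ⟨k, hmk⟩
        omega

theorem prime_iff {n y m : ℕ} (h : 2 * n ≤ y ^ 2) (hm : m ≠ 1) : (Odd m ∧ m < 2 * n ∧
    ∀ p, p.Prime → 3 ≤ p → p ≤ y → ¬ ∃ k, 1 < k ∧ m = p * k) ↔ m.Prime ∧ Odd m ∧ m < 2 * n := by
  rw [iff_adm]
  constructor
  · rintro (⟨h1, -⟩ | ⟨h1, h2, h3⟩)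
    · exact absurd h1 hm
    · refine ⟨?_, h1, h2⟩
      rcases h3 with h3 | ⟨h3, h4⟩
      · exact h3
      · by_contra hp
        have h5 := Nat.minFac_sq_le_self (by omega) hp
        have h6 := h4 m.minFac (Nat.minFac_prime hm) (Nat.minFac_dvd m)
        have : y ^ 2 < m.minFac ^ 2 := Nat.pow_lt_pow_left h6 (by norm_num)
        omega
  · rintro ⟨h1, h2, h3⟩
    exact Or.inr ⟨h2, h3, Or.inl h1⟩

/-- (1) There are `K` and `N` such that for all `n ≥ N` and all `y` with `y ^ K ≤ n` the intersection of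
the graphs `G(p, n)` over the odd primes `p ≤ y` is connected and any two vertices have distance at most
`5`, and if `y ≥ 11` some vertices have distance `5`; the same holds for the graphs on `{0, 2, ..., 2 n}`
without the number `1`. (2) For `2 n ≤ y ^ 2` these graphs are the near Goldbach graph `G(n)` and the
Goldbach graph `G_n`. (3) For `n ≥ 205` there are vertices of `G_n`, and of `G(n)`, whose distance is at
least `5`. -/
theorem result :
    (∃ K N : ℕ, ∀ n y : ℕ, N ≤ n → y ^ K ≤ n →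
      ((nearSifted n y).Connected ∧ (∀ a b, (nearSifted n y).dist a b ≤ 5) ∧
        (11 ≤ y → ∃ a b, (nearSifted n y).dist a b = 5)) ∧
      ((sifted n y).Connected ∧ (∀ a b, (sifted n y).dist a b ≤ 5) ∧
        (11 ≤ y → ∃ a b, (sifted n y).dist a b = 5))) ∧
    (∀ n y : ℕ, 1 ≤ n → 2 * n ≤ y ^ 2 → nearSifted n y = nearGoldbach n ∧ sifted n y = goldbach n) ∧
    ∀ n : ℕ, 205 ≤ n → (∃ a b, 5 ≤ (goldbach n).edist a b) ∧
      ∃ a b, 5 ≤ (nearGoldbach n).edist a b := by
  refine ⟨?_, ?_, ?_⟩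
  · obtain ⟨K, N, hN⟩ := Pool.Agent.V1153.GG.upper
    refine ⟨K, max N 205, fun n y hn hy => ?_⟩
    have hn1 : N ≤ n := (le_max_left _ _).trans hn
    have hn2 : 205 ≤ n := (le_max_right _ _).trans hn
    have gen : ∀ V A : ℕ → Prop, (∀ a, V a → Even a ∧ a ≤ 2 * n) →
        (∀ a, Even a → 2 ≤ a → a ≤ 2 * n → V a) → (∀ m, Adm n y m → A m) →
        (∀ m, A m → m = 1 ∨ Adm n y m) → ((graph V A).Connected ∧
          (∀ a b, (graph V A).dist a b ≤ 5) ∧ (11 ≤ y → ∃ a b, (graph V A).dist a b = 5)) := by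
      intro V A h1 h2 h3 h4
      rw [graph_eq]
      have h5 := hN n hn1 y hy V A h1 h2 h3
      have hcon : (Pool.Agent.V1153.GG.graph V A).Connected := by
        have : Nonempty {a : ℕ // V a} := ⟨⟨2, h2 2 even_two le_rfl (by omega)⟩⟩
        exact ⟨fun a b => (h5 a b).elim fun p _ => p.reachable⟩
      have hle : ∀ a b, (Pool.Agent.V1153.GG.graph V A).dist a b ≤ 5 := fun a b => by
        obtain ⟨p, hp⟩ := h5 a b
        exact (SimpleGraph.dist_le p).trans hp
      refine ⟨hcon, hle, fun hy11 => ?_⟩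
      have v1 : V 52 := h2 52 (by decide) (by norm_num) (by omega)
      have v2 : V 410 := h2 410 (by decide) (by norm_num) (by omega)
      refine ⟨⟨52, v1⟩, ⟨410, v2⟩, le_antisymm (hle _ _) ?_⟩
      obtain ⟨p, hp⟩ := hcon.exists_walk_length_eq_dist ⟨52, v1⟩ ⟨410, v2⟩
      rw [← hp]
      exact Pool.Agent.V1153.GG.lower hy11 h1 h4 v1 v2 p
    refine ⟨gen _ _ (fun a h => ⟨h.1, h.2.2⟩) (fun a h1 h2 h3 => ⟨h1, h2, h3⟩)
      (fun m hm => iff_adm.2 (Or.inr hm)) (fun m hm => (iff_adm.1 hm).imp And.left id),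
      gen _ _ (fun a h => h) (fun a h1 _ h3 => ⟨h1, h3⟩) (fun m hm => ⟨?_, iff_adm.2 (Or.inr hm)⟩)
      (fun m hm => (iff_adm.1 hm.2).imp And.left id)⟩
    rintro rfl
    rcases hm.2.2 with h | h
    · exact Nat.not_prime_one h
    · exact absurd h.1 (lt_irrefl 1)
  · intro n y hn hy
    refine ⟨?_, ?_⟩
    · unfold nearSifted nearGoldbach
      congr 1
      funext m
      by_cases hm : m = 1
      · subst hm
        rw [eq_iff_iff]
        refine ⟨fun _ => Or.inl rfl, fun _ => iff_adm.2 (Or.inl ⟨rfl, by omega⟩)⟩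
      · rw [eq_iff_iff, prime_iff hy hm]
        exact ⟨Or.inr, fun h => h.resolve_left hm⟩
    · unfold sifted goldbach
      congr 1
      funext m
      rw [eq_iff_iff]
      constructor
      · rintro ⟨hm, h⟩
        exact (prime_iff hy hm).1 h
      · intro h
        have hm : m ≠ 1 := by
          rintro rfl
          exact Nat.not_prime_one h.1
        exact ⟨hm, (prime_iff hy hm).2 h⟩
  · intro n hn
    have gen : ∀ V A : ℕ → Prop, (∀ a, V a → Even a ∧ a ≤ 2 * n) →
        (∀ a, Even a → 2 ≤ a → a ≤ 2 * n → V a) →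
        (∀ m, A m → m = 1 ∨ (m.Prime ∧ Odd m ∧ m < 2 * n)) → ∃ a b, 5 ≤ (graph V A).edist a b := by
      intro V A h1 h2 h3
      rw [graph_eq]
      have v1 : V 52 := h2 52 (by decide) (by norm_num) (by omega)
      have v2 : V 410 := h2 410 (by decide) (by norm_num) (by omega)
      refine ⟨⟨52, v1⟩, ⟨410, v2⟩, ?_⟩
      unfold SimpleGraph.edist
      refine le_iInf fun p => ?_
      have := Pool.Agent.V1153.GG.lower (y := 11) le_rfl h1
        (fun m hm => (h3 m hm).imp id fun h => ⟨h.2.1, h.2.2, Or.inl h.1⟩) v1 v2 p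
      exact_mod_cast this
    exact ⟨gen _ _ (fun a h => h) (fun a h1 _ h3 => ⟨h1, h3⟩) (fun m hm => Or.inr hm),
      gen _ _ (fun a h => ⟨h.1, h.2.2⟩) (fun a h1 h2 h3 => ⟨h1, h2, h3⟩) (fun m hm => hm)⟩

end Pool.Agent.Results.MP_443e5f_co.SiftedGoldbachGraphs
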